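import Pool.Agent.H27.L1.H49.GHK.K1C
import Pool.Agent.H27.L1.H69.GK.T1
import Pool.Agent.H27.L1.H31.GK.TG2

/-!
Board ghk (MP_52e316_nt), group K1: the matrix coefficient near the unit matrix, from the oscillating
integral (T_JKZ), the flags and the volume.
-/

namespace Pool.Agent.H27.L1.H49.GHK

open MeasureTheory Pool.Agent.H27.L1.H34.GM Pool.Agent.H27.L1.H69.GK

open Classical in
/-- the orthogonal part -/
noncomputable def qk {m : ℕ} (w : Mat m) : Mat m :=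
  if h : w.det ≠ 0 then Classical.choose (exists_qr w h) else 1

lemma qk_spec {m : ℕ} (w : Mat m) (h : w.det ≠ 0) : ∃ a : Mat m,
    qk w * (qk w).transpose = 1 ∧ w = qk w * a ∧ (∀ i j : Fin m, j < i → a i j = 0) ∧
      ∀ i, 0 < a i i := by
  unfold qk
  rw [dif_pos h]
  exact Classical.choose_spec (exists_qr w h)

/-- the quotient in terms of the orthogonal part -/
lemma jq_qk {m : ℕ} (mu : Fin m → ℂ) (z w : V m) (hz : (mt z).det ≠ 0) (hw : (mt w).det ≠ 0) :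
    jq mu z w = pw mu (mt z * qk (mt w)) := by
  obtain ⟨a, hu, hwa, ha, -⟩ := qk_spec (mt w) hw
  have hud : (qk (mt w)).det ≠ 0 := by
    intro h
    apply hw
    rw [hwa, Matrix.det_mul, h, zero_mul]
  have had : a.det ≠ 0 := by
    intro h
    apply hw
    rw [hwa, Matrix.det_mul, h, mul_zero]
  have h1 : pw mu (mt w) = pw mu a := by
    have := pw_orth mu hu a
    rw [← hwa] at this
    exact this
  have h2 : pw mu (mt z * mt w) = pw mu (mt z * qk (mt w)) * pw mu a := by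
    have := pw_mul_tri mu (z := mt z * qk (mt w)) (a := a)
      (by rw [Matrix.det_mul]; exact mul_ne_zero hz hud) had ha
    rw [Matrix.mul_assoc, ← hwa] at this
    exact this
  unfold jq
  rw [h1, h2, mul_div_assoc, div_self (pw_ne0 mu had), mul_one]

/-- the volume -/
lemma k1vol (hH : T_HAR) {m : ℕ} (hm1 : 1 ≤ m) {κ : Mat m → ℝ} (hκ : Kap m κ) :
    ∃ C : ℝ, 0 < C ∧ ∀ (ν : Fin m → ℝ), Monotone ν → ∀ (k : Mat m), k * k.transpose = 1 →
      ∀ (G : Mat m → ℝ), (∀ k' : Mat m, k' * k'.transpose = 1 → 0 ≤ G k' ∧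
        ∀ p q : Fin m, (q : ℕ) = p + 1 →
          (ν q - ν p) / 2 * Real.sqrt (Pool.Agent.H27.L1.H40.GHK.fsq (Ek k q - Ek k' q)) ≤ G k') →
      ∫⁻ w' : V m, ENNReal.ofReal (κ (mt w') * ((1 + G (qk (mt w'))) ^ (2 * (m * m)))⁻¹) ∂(hm m) ≤
        ENNReal.ofReal (C * ∏ i, ∏ l, (1 + gp ν i l)⁻¹) := by
  obtain ⟨c, hc, hs⟩ := hκ.supp
  obtain ⟨R, hR⟩ : ∃ R : ℝ, R = max c 1 := ⟨_, rfl⟩
  have hR1 : 1 ≤ R := by rw [hR]; exact le_max_right _ _
  have hRc : c ≤ R := by rw [hR]; exact le_max_left _ _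
  obtain ⟨C1, hC1, hF⟩ := pf_FLG m R hR1
  obtain ⟨C2, hC2, hV⟩ := pf_VOK hH m hm1 R hR1
  obtain ⟨Q, hQ⟩ := (RR_compact m c).exists_bound_of_continuousOn
    ((hκ.cont.comp mt_cont).continuousOn)
  obtain ⟨Q', hQ'⟩ : ∃ Q' : ℝ, Q' = max Q 1 := ⟨_, rfl⟩
  have hQp : 0 < Q' := by rw [hQ']; exact lt_max_of_lt_right one_pos
  have hκb : ∀ w : V m, κ (mt w) ≠ 0 → κ (mt w) ≤ Q' := by
    intro w hw
    have h1 := hQ w (hs _ hw)
    have h2 : κ (mt w) ≤ ‖κ (mt w)‖ := Real.le_norm_self _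
    rw [hQ']
    exact (h2.trans h1).trans (le_max_left _ _)
  refine ⟨Q' * C1 * C2, by positivity, ?_⟩
  intro ν hν k hk G hG
  have hkt : k.transpose * k.transpose.transpose = 1 := by
    rw [Matrix.transpose_transpose]
    exact mul_eq_one_comm.mp hk
  have hvn : ∀ w : Mat m, 0 ≤ vk R ν k.transpose w := by
    intro w
    unfold vk
    split_ifs
    · exact Finset.prod_nonneg fun i _ => Finset.prod_nonneg fun l _ =>
        inv_nonneg.mpr (sq_nonneg _)
    · exact le_refl _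
  have hpt : ∀ w' : V m, ENNReal.ofReal (κ (mt w') *
      ((1 + G (qk (mt w'))) ^ (2 * (m * m)))⁻¹) ≤
      ENNReal.ofReal (Q' * C1) * ENNReal.ofReal (vk R ν k.transpose (mt w')) := by
    intro w'
    rw [← ENNReal.ofReal_mul (by positivity)]
    refine ENNReal.ofReal_le_ofReal ?_
    by_cases h0 : κ (mt w') = 0
    · rw [h0, zero_mul]
      exact mul_nonneg (by positivity) (hvn _)
    · have hsw := hs _ h0
      have hdw : (mt w').det ≠ 0 := RR_det hc hsw
      obtain ⟨a', hu', hwa', ha', -⟩ := qk_spec (mt w') hdw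
      have hG' := hG (qk (mt w')) hu'
      have h1 := hF ν hν k (qk (mt w')) a' hk hu' ha' (by rw [← hwa']; exact hsw.1.trans hRc)
        (G (qk (mt w'))) hG'.1 hG'.2
      rw [← hwa'] at h1
      have h2 : vk R ν k.transpose (mt w') =
          ∏ i, ∏ l, ((1 + gp ν i l * |(k.transpose * (mt w')) i l|) ^ 2)⁻¹ := by
        unfold vk
        rw [if_pos]
        refine ⟨hsw.1.trans hRc, ?_⟩
        have : R⁻¹ ≤ c⁻¹ := inv_anti₀ hc hRc
        exact this.trans hsw.2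
      rw [h2]
      have h3 : 0 ≤ ((1 + G (qk (mt w'))) ^ (2 * (m * m)))⁻¹ := by
        have := hG'.1
        positivity
      calc κ (mt w') * ((1 + G (qk (mt w'))) ^ (2 * (m * m)))⁻¹
          ≤ Q' * (C1 * ∏ i, ∏ l, ((1 + gp ν i l * |(k.transpose * (mt w')) i l|) ^ 2)⁻¹) :=
            mul_le_mul (hκb w' h0) h1 h3 hQp.le
        _ = Q' * C1 * ∏ i, ∏ l, ((1 + gp ν i l * |(k.transpose * (mt w')) i l|) ^ 2)⁻¹ := by
            ring
  calc ∫⁻ w' : V m, ENNReal.ofReal (κ (mt w') *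
        ((1 + G (qk (mt w'))) ^ (2 * (m * m)))⁻¹) ∂(hm m)
      ≤ ∫⁻ w' : V m, ENNReal.ofReal (Q' * C1) *
        ENNReal.ofReal (vk R ν k.transpose (mt w')) ∂(hm m) := lintegral_mono hpt
    _ = ENNReal.ofReal (Q' * C1) * ∫⁻ w' : V m,
        ENNReal.ofReal (vk R ν k.transpose (mt w')) ∂(hm m) :=
        lintegral_const_mul' _ _ ENNReal.ofReal_ne_top
    _ ≤ ENNReal.ofReal (Q' * C1) * ENNReal.ofReal (C2 * ∏ i, ∏ l, (1 + gp ν i l)⁻¹) :=
        mul_le_mul_right (hV ν k.transpose hkt) _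
    _ = ENNReal.ofReal (Q' * C1 * C2 * ∏ i, ∏ l, (1 + gp ν i l)⁻¹) := by
        rw [← ENNReal.ofReal_mul (by positivity)]
        congr 1
        ring

open Pool.Agent.H27.L1.H40.GHK in
/-- matrices near the unit matrix are invertible -/
lemma det_ne_fsq {m : ℕ} (z : Mat m) (h : fsq (z - 1) < 1) : z.det ≠ 0 := by
  intro h0
  obtain ⟨v, hv, hz⟩ := Matrix.exists_mulVec_eq_zero_iff.mpr h0
  have h1 : ∀ i, v i = -∑ j, (z - 1) i j * v j := by
    intro i
    have h2 : (z.mulVec v) i = 0 := by rw [hz]; rfl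
    have h3 : ((z - 1).mulVec v) i = -v i := by
      rw [Matrix.sub_mulVec, Matrix.one_mulVec, Pi.sub_apply, h2, zero_sub]
    have h4 : ((z - 1).mulVec v) i = ∑ j, (z - 1) i j * v j := rfl
    rw [← h4, h3, neg_neg]
  have h5 : ∀ i, v i ^ 2 ≤ (∑ j, (z - 1) i j ^ 2) * ∑ j, v j ^ 2 := by
    intro i
    calc v i ^ 2 = (∑ j, (z - 1) i j * v j) ^ 2 := by rw [h1 i, neg_sq]
      _ ≤ _ := Finset.sum_mul_sq_le_sq_mul_sq _ _ _
  have h6 : ∑ i, v i ^ 2 ≤ fsq (z - 1) * ∑ j, v j ^ 2 := by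
    calc ∑ i, v i ^ 2 ≤ ∑ i, (∑ j, (z - 1) i j ^ 2) * ∑ j, v j ^ 2 :=
          Finset.sum_le_sum fun i _ => h5 i
      _ = fsq (z - 1) * ∑ j, v j ^ 2 := by
          unfold fsq
          rw [← Finset.sum_mul]
  have h7 : 0 < ∑ j, v j ^ 2 := by
    obtain ⟨j, hj⟩ := Function.ne_iff.mp hv
    have h8 : 0 < v j ^ 2 := by
      have : v j ≠ 0 := hj
      positivity
    exact h8.trans_le (Finset.single_le_sum (f := fun j => v j ^ 2)
      (fun j _ => sq_nonneg _) (Finset.mem_univ j))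
  nlinarith

open Pool.Agent.H27.L1.H40.GHK in
lemma fsq_cont {m : ℕ} : Continuous (fun z : V m => fsq (mt z - 1)) := by
  unfold fsq
  refine continuous_finsetSum _ fun i _ => continuous_finsetSum _ fun j _ => ?_
  have h1 : Continuous (fun z : V m => (mt z - 1) i j) := by
    change Continuous (fun z : V m => z i j - (1 : Mat m) i j)
    fun_prop
  exact h1.pow 2

open Pool.Agent.H27.L1.H40.GHK in
lemma sz_le_fsq {m : ℕ} (z : Mat m) : sz z ≤ Real.sqrt (fsq z) := by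
  unfold sz
  refine (pi_norm_le_iff_of_nonneg (Real.sqrt_nonneg _)).mpr fun i => ?_
  refine (pi_norm_le_iff_of_nonneg (Real.sqrt_nonneg _)).mpr fun j => ?_
  exact ent_le_fsq z i j

open Pool.Agent.H27.L1.H40.GHK in
lemma fsq_le_sz {m : ℕ} (z : Mat m) : fsq z ≤ (m * sz z) ^ 2 := by
  unfold fsq
  calc ∑ i, ∑ j, z i j ^ 2 ≤ ∑ _i : Fin m, ∑ _j : Fin m, sz z ^ 2 := by
        refine Finset.sum_le_sum fun i _ => Finset.sum_le_sum fun j _ => ?_
        have := sz_ent z i j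
        calc z i j ^ 2 = |z i j| ^ 2 := (sq_abs _).symm
          _ ≤ sz z ^ 2 := pow_le_pow_left₀ (abs_nonneg _) this 2
    _ = (m * sz z) ^ 2 := by
        simp only [Finset.sum_const, Finset.card_univ, Fintype.card_fin, nsmul_eq_mul]
        ring

open Pool.Agent.H27.L1.H40.GHK in
/-- the compact ball -/
lemma ball_compact (m : ℕ) (ρ : ℝ) : IsCompact {z : V m | fsq (mt z - 1) ≤ ρ ^ 2} := by
  apply Metric.isCompact_of_isClosed_isBounded
  · exact isClosed_le fsq_cont continuous_const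
  · apply (Metric.isBounded_closedBall (x := (fun i j => (1 : Mat m) i j : V m))
      (r := |ρ|)).subset
    intro z hz
    rw [mem_closedBall_iff_norm]
    have h1 : sz (mt z - 1) ≤ |ρ| := by
      refine (sz_le_fsq _).trans ?_
      rw [← Real.sqrt_sq_eq_abs]
      exact Real.sqrt_le_sqrt hz
    exact h1

/-- compact sets of invertible matrices have finite measure -/
lemma hm_compact (hH : T_HAR) {m : ℕ} (hm1 : 1 ≤ m) {K : Set (V m)} (hK : IsCompact K)
    (hKd : ∀ z ∈ K, (mt z).det ≠ 0) : hm m K < ⊤ := by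
  have h1 : ContinuousOn (fun z : V m => |(mt z).det|⁻¹) K :=
    ContinuousOn.inv₀ ((det_cont.comp mt_cont).abs.continuousOn)
      fun z hz => abs_ne_zero.mpr (hKd z hz)
  obtain ⟨B, hB⟩ := hK.exists_bound_of_continuousOn h1
  obtain ⟨B', hB'⟩ := hK.exists_bound_of_continuousOn ((sz_cont.comp mt_cont).continuousOn)
  obtain ⟨c, hc⟩ : ∃ c : ℝ, c = max (max B B') 1 := ⟨_, rfl⟩
  have hcp : 0 < c := by rw [hc]; exact lt_max_of_lt_right one_pos
  refine lt_of_le_of_lt (measure_mono ?_) (RR_fin hH hm1 hcp)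
  intro z hz
  refine ⟨?_, ?_⟩
  · have h2 := hB' z hz
    have h3 : sz (mt z) ≤ ‖sz (mt z)‖ := Real.le_norm_self _
    rw [hc]
    exact (h3.trans h2).trans ((le_max_right _ _).trans (le_max_left _ _))
  · have h2 := hB z hz
    have h3 : |(mt z).det|⁻¹ ≤ ‖|(mt z).det|⁻¹‖ := Real.le_norm_self _
    have h4 : |(mt z).det|⁻¹ ≤ c := by
      rw [hc]
      exact (h3.trans h2).trans ((le_max_left _ _).trans (le_max_left _ _))
    exact inv_le_of_inv_le₀ (abs_pos.mpr (hKd z hz)) h4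

open Pool.Agent.H27.L1.H40.GHK in
/-- the matrix coefficient near the unit matrix, with the cutoff -/
theorem k1et (hH : T_HAR) (hP : T_PWC) (hJ : T_JKZ) : ∀ m : ℕ, 1 ≤ m → ∃ ρ : ℝ, 0 < ρ ∧
    ρ ≤ 1 / 2 ∧ ∀ κ : Mat m → ℝ, Kap m κ → ∀ M : ℝ, ∃ C : ℝ, 0 < C ∧ ∀ mu : Fin m → ℂ,
      (∀ j, |(mu j).re| ≤ M) → Monotone (fun j => (mu j).im) →
      Integrable (fun z : V m => et (2 * (m * m)) ρ (mt z) * ‖phi0 κ mu (mt z)‖ ^ 2) (hm m) ∧
      ∫ z : V m, et (2 * (m * m)) ρ (mt z) * ‖phi0 κ mu (mt z)‖ ^ 2 ∂(hm m) ≤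
        C * ∏ i, ∏ l, (1 + gp (fun j => (mu j).im) i l)⁻¹ := by
  intro m hm1
  obtain ⟨ρ, hρ, hρ2, hJ1⟩ := hJ m hm1
  refine ⟨ρ, hρ, hρ2, ?_⟩
  intro κ hκ M
  obtain ⟨C0, hC0, hJ2⟩ := hJ1 (2 * (m * m)) M
  obtain ⟨C1, hC1, hV⟩ := k1vol hH hm1 hκ
  refine ⟨C0 * C1, mul_pos hC0 hC1, ?_⟩
  intro mu hM hmon
  have hJ3 := hJ2 mu hM hmon
  choose G hG0 hG1 hG2 using hJ3
  have hpp : 0 ≤ ∏ i, ∏ l, (1 + gp (fun j => (mu j).im) i l)⁻¹ :=
    Finset.prod_nonneg fun i _ => Finset.prod_nonneg fun l _ =>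
      inv_nonneg.mpr (by have := gp_nn (fun j => (mu j).im) i l; linarith)
  obtain ⟨Gx, hGx⟩ : ∃ Gx : Mat m → Mat m → ℝ, ∀ (k k' : Mat m) (hk : k * k.transpose = 1)
      (hk' : k' * k'.transpose = 1), Gx k k' = G k k' hk hk' := by
    classical
    refine ⟨fun k k' => if h : k * k.transpose = 1 ∧ k' * k'.transpose = 1 then
      G k k' h.1 h.2 else 0, fun k k' hk hk' => ?_⟩
    change (if h : k * k.transpose = 1 ∧ k' * k'.transpose = 1 then
      G k k' h.1 h.2 else 0) = _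
    rw [dif_pos ⟨hk, hk'⟩]
  obtain ⟨K, hKe⟩ : ∃ K : Set (V m), K = {z : V m | fsq (mt z - 1) ≤ ρ ^ 2} := ⟨_, rfl⟩
  have hK : IsCompact K := by rw [hKe]; exact ball_compact m ρ
  have hρ4 : ρ ^ 2 < 1 := by nlinarith
  have hKd : ∀ z ∈ K, (mt z).det ≠ 0 := by
    intro z hz
    rw [hKe] at hz
    exact det_ne_fsq _ (lt_of_le_of_lt hz hρ4)
  have hKf := hm_compact hH hm1 hK hKd
  have hfn : ∀ z : Mat m, 0 ≤ fsq z := fun z =>
    Finset.sum_nonneg fun _ _ => Finset.sum_nonneg fun _ _ => sq_nonneg _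
  have hetm : Measurable (fun z : V m => et (2 * (m * m)) ρ (mt z)) := by
    unfold et
    refine Measurable.ite ?_ ?_ measurable_const
    · exact measurableSet_lt fsq_cont.measurable measurable_const
    · exact ((measurable_const.sub (fsq_cont.measurable.div_const _)).pow_const _)
  have het0 : ∀ z : V m, 0 ≤ et (2 * (m * m)) ρ (mt z) := by
    intro z
    unfold et
    split_ifs with h
    · refine pow_nonneg ?_ _
      rw [sub_nonneg, div_le_one (by positivity)]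
      exact h.le
    · exact le_refl _
  have het1 : ∀ z : V m, et (2 * (m * m)) ρ (mt z) ≤ 1 := by
    intro z
    unfold et
    split_ifs with h
    · refine pow_le_one₀ ?_ ?_
      · rw [sub_nonneg, div_le_one (by positivity)]
        exact h.le
      · have : 0 ≤ fsq (mt z - 1) / ρ ^ 2 := div_nonneg (hfn _) (sq_nonneg _)
        linarith
    · exact zero_le_one
  have hetK : ∀ z : V m, z ∉ K → et (2 * (m * m)) ρ (mt z) = 0 := by
    intro z hz
    unfold et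
    rw [if_neg]
    intro h
    apply hz
    rw [hKe]
    exact h.le
  haveI : SFinite (hm m) := by unfold hm; infer_instance
  have hcore := k1core hH hP hm1 mu hκ (hm m) K hK hKd hKf
    (fun z => et (2 * (m * m)) ρ (mt z)) hetm het0 het1 hetK
    (fun w w' => C0 * ((1 + Gx (qk (mt w)) (qk (mt w'))) ^ (2 * (m * m)))⁻¹)
    (C0 * C1 * ∏ i, ∏ l, (1 + gp (fun j => (mu j).im) i l)⁻¹) ?_ ?_
  · refine ⟨hcore.1, hcore.2.trans (le_of_eq ?_)⟩
    exact max_eq_left (by positivity)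
  · intro w w' hw hw'
    obtain ⟨a, hu, -, -, -⟩ := qk_spec (mt w) hw
    obtain ⟨a', hu', -, -, -⟩ := qk_spec (mt w') hw'
    have h1 := hG2 (qk (mt w)) (qk (mt w')) hu hu'
    rw [← hGx] at h1
    refine le_trans (le_of_eq ?_) h1
    congr 1
    refine integral_congr_ae (Filter.Eventually.of_forall fun z => ?_)
    change ((et (2 * (m * m)) ρ (mt z) : ℝ) : ℂ) *
      (jq mu z w * (starRingEnd ℂ) (jq mu z w')) = _
    by_cases hz : z ∈ K
    · rw [jq_qk mu z w (hKd z hz) hw, jq_qk mu z w' (hKd z hz) hw']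
    · simp only [hetK z hz, Complex.ofReal_zero, zero_mul]
  · intro w hw
    obtain ⟨a, hu, -, -, -⟩ := qk_spec (mt w) hw
    have h1 := hV (fun j => (mu j).im) hmon (qk (mt w)) hu (fun k' => Gx (qk (mt w)) k')
      (fun k' hk' => by
        rw [hGx _ _ hu hk']
        exact ⟨hG0 _ _ hu hk', hG1 _ _ hu hk'⟩)
    calc ∫⁻ w' : V m, ENNReal.ofReal (κ (mt w') *
          (C0 * ((1 + Gx (qk (mt w)) (qk (mt w'))) ^ (2 * (m * m)))⁻¹)) ∂(hm m)
        = ∫⁻ w' : V m, ENNReal.ofReal C0 * ENNReal.ofReal (κ (mt w') *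
          ((1 + Gx (qk (mt w)) (qk (mt w'))) ^ (2 * (m * m)))⁻¹) ∂(hm m) := by
          refine lintegral_congr fun w' => ?_
          rw [← ENNReal.ofReal_mul hC0.le]
          congr 1
          ring
      _ = ENNReal.ofReal C0 * ∫⁻ w' : V m, ENNReal.ofReal (κ (mt w') *
          ((1 + Gx (qk (mt w)) (qk (mt w'))) ^ (2 * (m * m)))⁻¹) ∂(hm m) :=
          lintegral_const_mul' _ _ ENNReal.ofReal_ne_top
      _ ≤ ENNReal.ofReal C0 *
          ENNReal.ofReal (C1 * ∏ i, ∏ l, (1 + gp (fun j => (mu j).im) i l)⁻¹) :=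
          mul_le_mul_right h1 _
      _ = _ := by
          rw [← ENNReal.ofReal_mul hC0.le]
          congr 1
          ring

end Pool.Agent.H27.L1.H49.GHK
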