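import Pool.Agent.H27.L1.H69.GK.FLG
import Pool.Agent.H27.L1.H69.GK.PHK2

/-!
Board ghk (MP_52e316_nt), group K1: the square of the average `phi0` near the unit matrix, from the
oscillating integral and the volume of the flags.
-/

namespace Pool.Agent.H27.L1.H49.GHK

open MeasureTheory Pool.Agent.H27.L1.H34.GM Pool.Agent.H27.L1.H69.GK

/-- the quotient -/
noncomputable def jq {m : ℕ} (mu : Fin m → ℂ) (z w : V m) : ℂ :=
  pw mu (mt z * mt w) / pw mu (mt w)

lemma fz_cont (hP : T_PWC) {m : ℕ} (hm1 : 1 ≤ m) (mu : Fin m → ℂ) {κ : Mat m → ℝ}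
    (hκ : Kap m κ) :
    ContinuousOn (fun p : V m × V m => (κ (mt p.2) : ℂ) * jq mu p.1 p.2)
      ({z | (mt z).det ≠ 0} ×ˢ Set.univ) :=
  (kq_cont hP hm1 mu hκ).comp (f := fun p : V m × V m => ((mt p.1, p.2) : Mat m × V m))
    (((mt_cont.comp continuous_fst).prodMk continuous_snd).continuousOn)
    (fun p hp => hp)

/-- the core: Fubini -/
theorem k1core (hH : T_HAR) (hP : T_PWC) {m : ℕ} (hm1 : 1 ≤ m) (mu : Fin m → ℂ)
    {κ : Mat m → ℝ} (hκ : Kap m κ) (μ : Measure (V m)) [SFinite μ] (K : Set (V m))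
    (hK : IsCompact K) (hKd : ∀ z ∈ K, (mt z).det ≠ 0) (hKf : μ K < ⊤)
    (ct : V m → ℝ) (hcm : Measurable ct) (hc0 : ∀ z, 0 ≤ ct z) (hc1 : ∀ z, ct z ≤ 1)
    (hcK : ∀ z, z ∉ K → ct z = 0) (B : V m → V m → ℝ) (C : ℝ)
    (hJ : ∀ w w' : V m, (mt w).det ≠ 0 → (mt w').det ≠ 0 →
      ‖∫ z : V m, (ct z : ℂ) * (jq mu z w * (starRingEnd ℂ) (jq mu z w')) ∂μ‖ ≤ B w w')
    (hB : ∀ w : V m, (mt w).det ≠ 0 →
      ∫⁻ w' : V m, ENNReal.ofReal (κ (mt w') * B w w') ∂(hm m) ≤ ENNReal.ofReal C) :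
    Integrable (fun z : V m => ct z * ‖phi0 κ mu (mt z)‖ ^ 2) μ ∧
    ∫ z : V m, ct z * ‖phi0 κ mu (mt z)‖ ^ 2 ∂μ ≤ max C 0 := by
  obtain ⟨c, hc, hs⟩ := hκ.supp
  haveI : IsFiniteMeasure (μ.restrict K) := ⟨by rw [Measure.restrict_apply_univ]; exact hKf⟩
  haveI i1 : IsFiniteMeasure ((hm m).restrict (RR m c)) :=
    ⟨by rw [Measure.restrict_apply_univ]; exact RR_fin hH hm1 hc⟩
  haveI : SFinite (hm m) := by unfold hm; infer_instance
  have hKm : MeasurableSet K := hK.isClosed.measurableSet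
  have hphi : ContinuousOn (fun z : V m => phi0 κ mu (mt z)) K :=
    (phi0_cont hH hP hm1 mu hκ).comp mt_cont.continuousOn fun z hz => hKd z hz
  obtain ⟨B1, hB1⟩ := hK.exists_bound_of_continuousOn hphi
  have hfK : ContinuousOn (fun p : V m × V m => (κ (mt p.2) : ℂ) * jq mu p.1 p.2)
      (K ×ˢ RR m c) :=
    (fz_cont hP hm1 mu hκ).mono fun p hp => ⟨hKd _ hp.1, trivial⟩
  obtain ⟨B0, hB0⟩ := (hK.prod (RR_compact m c)).exists_bound_of_continuousOn hfK
  have hKRm : MeasurableSet (K ×ˢ RR m c) := hKm.prod (RR_meas m c)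
  have hfA : AEStronglyMeasurable (fun p : V m × V m => (κ (mt p.2) : ℂ) * jq mu p.1 p.2)
      ((μ.restrict K).prod ((hm m).restrict (RR m c))) := by
    rw [Measure.prod_restrict]
    exact hfK.aestronglyMeasurable hKRm
  have hphiA : AEStronglyMeasurable (fun z : V m => phi0 κ mu (mt z)) (μ.restrict K) :=
    hphi.aestronglyMeasurable hKm
  have hctA : AEStronglyMeasurable (fun z : V m => (ct z : ℂ)) (μ.restrict K) :=
    (Complex.measurable_ofReal.comp hcm).aestronglyMeasurable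
  have hctn : ∀ z, ‖(ct z : ℂ)‖ ≤ 1 := fun z => by
    rw [Complex.norm_real, Real.norm_eq_abs, abs_of_nonneg (hc0 z)]
    exact hc1 z
  have hB0n : ∀ p ∈ K ×ˢ RR m c, ‖(κ (mt p.2) : ℂ) * jq mu p.1 p.2‖ ≤ |B0| :=
    fun p hp => (hB0 p hp).trans (le_abs_self _)
  have hB1n : ∀ z ∈ K, ‖phi0 κ mu (mt z)‖ ≤ |B1| := fun z hz => (hB1 z hz).trans (le_abs_self _)
  -- integrability of the square
  have hsq : IntegrableOn (fun z : V m => ct z * ‖phi0 κ mu (mt z)‖ ^ 2) K μ := by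
    refine Integrable.of_bound (C := |B1| ^ 2) ?_ ?_
    · exact hcm.aestronglyMeasurable.mul (hphiA.norm.pow 2)
    · refine (ae_restrict_iff' hKm).mpr (Filter.Eventually.of_forall fun z hz => ?_)
      rw [Real.norm_eq_abs, abs_of_nonneg (mul_nonneg (hc0 z) (sq_nonneg _))]
      calc ct z * ‖phi0 κ mu (mt z)‖ ^ 2 ≤ 1 * |B1| ^ 2 :=
            mul_le_mul (hc1 z) (pow_le_pow_left₀ (norm_nonneg _) (hB1n z hz) 2) (sq_nonneg _)
              zero_le_one
        _ = |B1| ^ 2 := one_mul _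
  have hzero : ∀ z, z ∉ K → ct z * ‖phi0 κ mu (mt z)‖ ^ 2 = 0 := fun z hz => by
    rw [hcK z hz, zero_mul]
  refine ⟨?_, ?_⟩
  · rw [← integrableOn_univ]
    exact hsq.of_forall_diff_eq_zero MeasurableSet.univ fun z hz => hzero z hz.2
  have h0 : ∫ z : V m, ct z * ‖phi0 κ mu (mt z)‖ ^ 2 ∂μ =
      ∫ z in K, ct z * ‖phi0 κ mu (mt z)‖ ^ 2 ∂μ :=
    (setIntegral_eq_integral_of_forall_compl_eq_zero hzero).symm
  -- first application of Fubini
  have hI1 : Integrable (Function.uncurry fun (z w : V m) =>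
      (ct z : ℂ) * (starRingEnd ℂ) (phi0 κ mu (mt z)) * ((κ (mt w) : ℂ) * jq mu z w))
      ((μ.restrict K).prod ((hm m).restrict (RR m c))) := by
    refine Integrable.of_bound (C := |B1| * |B0|) ?_ ?_
    · refine AEStronglyMeasurable.mul (AEStronglyMeasurable.mul ?_ ?_) hfA
      · exact hctA.comp_fst
      · exact (Complex.continuous_conj.comp_aestronglyMeasurable hphiA).comp_fst
    · rw [Measure.prod_restrict]
      refine (ae_restrict_iff' hKRm).mpr (Filter.Eventually.of_forall fun p hp => ?_)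
      change ‖(ct p.1 : ℂ) * (starRingEnd ℂ) (phi0 κ mu (mt p.1)) *
        ((κ (mt p.2) : ℂ) * jq mu p.1 p.2)‖ ≤ _
      rw [norm_mul, norm_mul, RCLike.norm_conj]
      refine mul_le_mul ?_ (hB0n p hp) (norm_nonneg _) (abs_nonneg _)
      calc ‖(ct p.1 : ℂ)‖ * ‖phi0 κ mu (mt p.1)‖ ≤ 1 * |B1| :=
            mul_le_mul (hctn _) (hB1n _ hp.1) (norm_nonneg _) zero_le_one
        _ = |B1| := one_mul _
  have h1 : ((∫ z in K, ct z * ‖phi0 κ mu (mt z)‖ ^ 2 ∂μ : ℝ) : ℂ) =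
      ∫ w in RR m c, ∫ z in K, (ct z : ℂ) * (starRingEnd ℂ) (phi0 κ mu (mt z)) *
        ((κ (mt w) : ℂ) * jq mu z w) ∂μ ∂(hm m) := by
    rw [← integral_integral_swap hI1, ← integral_complex_ofReal]
    refine integral_congr_ae (Filter.Eventually.of_forall fun z => ?_)
    change ((ct z * ‖phi0 κ mu (mt z)‖ ^ 2 : ℝ) : ℂ) = ∫ w in RR m c,
      (ct z : ℂ) * (starRingEnd ℂ) (phi0 κ mu (mt z)) * ((κ (mt w) : ℂ) * jq mu z w) ∂(hm m)
    rw [integral_const_mul]
    have h2 : phi0 κ mu (mt z) = ∫ w in RR m c, (κ (mt w) : ℂ) * jq mu z w ∂(hm m) :=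
      phi0_eq hs (mt z)
    rw [← h2, mul_assoc, mul_comm ((starRingEnd ℂ) (phi0 κ mu (mt z))), Complex.mul_conj,
      Complex.normSq_eq_norm_sq]
    push_cast
    ring
  -- the inner integral
  have h3 : ∀ w ∈ RR m c, ‖∫ z in K, (ct z : ℂ) * (starRingEnd ℂ) (phi0 κ mu (mt z)) *
        ((κ (mt w) : ℂ) * jq mu z w) ∂μ‖ₑ ≤ ENNReal.ofReal (κ (mt w) * max C 0) := by
    intro w hw
    have hwd := RR_det hc hw
    have hI2 : Integrable (Function.uncurry fun (z w' : V m) =>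
        (ct z : ℂ) * ((κ (mt w) : ℂ) * jq mu z w) *
          (starRingEnd ℂ) ((κ (mt w') : ℂ) * jq mu z w'))
        ((μ.restrict K).prod ((hm m).restrict (RR m c))) := by
      have hgK : ContinuousOn (fun z : V m => (κ (mt w) : ℂ) * jq mu z w) K :=
        (fz_cont hP hm1 mu hκ).comp (f := fun z : V m => ((z, w) : V m × V m))
          (continuous_id.prodMk continuous_const).continuousOn
          (fun z hz => ⟨hKd z hz, trivial⟩)
      refine Integrable.of_bound (C := |B0| * |B0|) ?_ ?_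
      · refine AEStronglyMeasurable.mul (AEStronglyMeasurable.mul ?_ ?_) ?_
        · exact hctA.comp_fst
        · exact (hgK.aestronglyMeasurable hKm).comp_fst
        · exact Complex.continuous_conj.comp_aestronglyMeasurable hfA
      · rw [Measure.prod_restrict]
        refine (ae_restrict_iff' hKRm).mpr (Filter.Eventually.of_forall fun p hp => ?_)
        change ‖(ct p.1 : ℂ) * ((κ (mt w) : ℂ) * jq mu p.1 w) *
          (starRingEnd ℂ) ((κ (mt p.2) : ℂ) * jq mu p.1 p.2)‖ ≤ _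
        rw [norm_mul, norm_mul, RCLike.norm_conj]
        refine mul_le_mul ?_ (hB0n p hp) (norm_nonneg _) (abs_nonneg _)
        calc ‖(ct p.1 : ℂ)‖ * ‖(κ (mt w) : ℂ) * jq mu p.1 w‖ ≤ 1 * |B0| :=
              mul_le_mul (hctn _) (hB0n (p.1, w) ⟨hp.1, hw⟩) (norm_nonneg _) zero_le_one
          _ = |B0| := one_mul _
    have h4 : ∫ z in K, (ct z : ℂ) * (starRingEnd ℂ) (phi0 κ mu (mt z)) *
        ((κ (mt w) : ℂ) * jq mu z w) ∂μ =
        ∫ w' in RR m c, ∫ z in K, (ct z : ℂ) * ((κ (mt w) : ℂ) * jq mu z w) *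
          (starRingEnd ℂ) ((κ (mt w') : ℂ) * jq mu z w') ∂μ ∂(hm m) := by
      rw [← integral_integral_swap hI2]
      refine integral_congr_ae (Filter.Eventually.of_forall fun z => ?_)
      change (ct z : ℂ) * (starRingEnd ℂ) (phi0 κ mu (mt z)) * ((κ (mt w) : ℂ) * jq mu z w) =
        ∫ w' in RR m c, (ct z : ℂ) * ((κ (mt w) : ℂ) * jq mu z w) *
          (starRingEnd ℂ) ((κ (mt w') : ℂ) * jq mu z w') ∂(hm m)
      rw [integral_const_mul, integral_conj]
      have h2 : phi0 κ mu (mt z) = ∫ w in RR m c, (κ (mt w) : ℂ) * jq mu z w ∂(hm m) :=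
        phi0_eq hs (mt z)
      rw [← h2]
      ring
    rw [h4]
    refine (enorm_integral_le_lintegral_enorm _).trans ?_
    have h5 : ∀ w' : V m, w' ∈ RR m c →
        ‖∫ z in K, (ct z : ℂ) * ((κ (mt w) : ℂ) * jq mu z w) *
          (starRingEnd ℂ) ((κ (mt w') : ℂ) * jq mu z w') ∂μ‖ₑ ≤
        ENNReal.ofReal (κ (mt w)) * ENNReal.ofReal (κ (mt w') * B w w') := by
      intro w' hw'
      have hwd' := RR_det hc hw'
      have h6 : ∫ z in K, (ct z : ℂ) * ((κ (mt w) : ℂ) * jq mu z w) *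
          (starRingEnd ℂ) ((κ (mt w') : ℂ) * jq mu z w') ∂μ =
          (κ (mt w) : ℂ) * (κ (mt w') : ℂ) *
            ∫ z, (ct z : ℂ) * (jq mu z w * (starRingEnd ℂ) (jq mu z w')) ∂μ := by
        rw [← integral_const_mul]
        rw [← setIntegral_eq_integral_of_forall_compl_eq_zero (s := K)
          (f := fun z => (κ (mt w) : ℂ) * (κ (mt w') : ℂ) *
            ((ct z : ℂ) * (jq mu z w * (starRingEnd ℂ) (jq mu z w')))) fun z hz => by
          rw [hcK z hz, Complex.ofReal_zero, zero_mul, mul_zero]]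
        refine integral_congr_ae (Filter.Eventually.of_forall fun z => ?_)
        change (ct z : ℂ) * ((κ (mt w) : ℂ) * jq mu z w) *
          (starRingEnd ℂ) ((κ (mt w') : ℂ) * jq mu z w') = (κ (mt w) : ℂ) * (κ (mt w') : ℂ) *
            ((ct z : ℂ) * (jq mu z w * (starRingEnd ℂ) (jq mu z w')))
        rw [map_mul, Complex.conj_ofReal]
        ring
      rw [h6, ← ofReal_norm_eq_enorm, ← ENNReal.ofReal_mul (hκ.nn _)]
      refine ENNReal.ofReal_le_ofReal ?_
      rw [norm_mul, norm_mul, Complex.norm_real, Complex.norm_real, Real.norm_eq_abs,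
        Real.norm_eq_abs, abs_of_nonneg (hκ.nn _), abs_of_nonneg (hκ.nn _), mul_assoc]
      exact mul_le_mul_of_nonneg_left (mul_le_mul_of_nonneg_left (hJ w w' hwd hwd')
        (hκ.nn _)) (hκ.nn _)
    calc ∫⁻ w' in RR m c, ‖∫ z in K, (ct z : ℂ) * ((κ (mt w) : ℂ) * jq mu z w) *
          (starRingEnd ℂ) ((κ (mt w') : ℂ) * jq mu z w') ∂μ‖ₑ ∂(hm m)
        ≤ ∫⁻ w' in RR m c, ENNReal.ofReal (κ (mt w)) *
            ENNReal.ofReal (κ (mt w') * B w w') ∂(hm m) :=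
          setLIntegral_mono' (RR_meas m c) h5
      _ ≤ ∫⁻ w', ENNReal.ofReal (κ (mt w)) *
            ENNReal.ofReal (κ (mt w') * B w w') ∂(hm m) := setLIntegral_le_lintegral _ _
      _ = ENNReal.ofReal (κ (mt w)) * ∫⁻ w', ENNReal.ofReal (κ (mt w') * B w w') ∂(hm m) :=
          lintegral_const_mul' _ _ ENNReal.ofReal_ne_top
      _ ≤ ENNReal.ofReal (κ (mt w)) * ENNReal.ofReal C := mul_le_mul_right (hB w hwd) _
      _ ≤ ENNReal.ofReal (κ (mt w)) * ENNReal.ofReal (max C 0) :=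
          mul_le_mul_right (ENNReal.ofReal_le_ofReal (le_max_left _ _)) _
      _ = ENNReal.ofReal (κ (mt w) * max C 0) := (ENNReal.ofReal_mul (hκ.nn _)).symm
  have hκi : Integrable (fun w : V m => κ (mt w)) (hm m) := by
    by_contra hcon
    have := hκ.one
    rw [integral_undef hcon] at this
    exact zero_ne_one this
  have h7 : ‖((∫ z in K, ct z * ‖phi0 κ mu (mt z)‖ ^ 2 ∂μ : ℝ) : ℂ)‖ₑ ≤
      ENNReal.ofReal (max C 0) := by
    rw [h1]
    refine (enorm_integral_le_lintegral_enorm _).trans ?_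
    calc ∫⁻ w in RR m c, ‖∫ z in K, (ct z : ℂ) * (starRingEnd ℂ) (phi0 κ mu (mt z)) *
          ((κ (mt w) : ℂ) * jq mu z w) ∂μ‖ₑ ∂(hm m)
        ≤ ∫⁻ w in RR m c, ENNReal.ofReal (κ (mt w) * max C 0) ∂(hm m) :=
          setLIntegral_mono' (RR_meas m c) h3
      _ ≤ ∫⁻ w, ENNReal.ofReal (κ (mt w) * max C 0) ∂(hm m) := setLIntegral_le_lintegral _ _
      _ = ENNReal.ofReal (∫ w, κ (mt w) * max C 0 ∂(hm m)) := by
          rw [ofReal_integral_eq_lintegral_ofReal (hκi.mul_const _)]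
          exact Filter.Eventually.of_forall fun w =>
            mul_nonneg (hκ.nn _) (le_max_right _ _)
      _ = ENNReal.ofReal (max C 0) := by rw [integral_mul_const, hκ.one, one_mul]
  rw [h0]
  have h8 : 0 ≤ ∫ z in K, ct z * ‖phi0 κ mu (mt z)‖ ^ 2 ∂μ :=
    integral_nonneg fun z => mul_nonneg (hc0 z) (sq_nonneg _)
  rw [← ofReal_norm_eq_enorm, Complex.norm_real, Real.norm_eq_abs, abs_of_nonneg h8] at h7
  exact (ENNReal.ofReal_le_ofReal_iff (le_max_right _ _)).mp h7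

end Pool.Agent.H27.L1.H49.GHK
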